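import Mathlib
import Pool.Agent.MP_2a866c_an.H83.Main

set_option autoImplicit false

open Matrix
open scoped ComplexOrder Kronecker

namespace Pool.Agent.Results.MP_2a866c_an.NotGenCLP

/-- The real vector space of `n × n` complex hermitian matrices. -/
abbrev H (n : ℕ) : Type := selfAdjoint (Matrix (Fin n) (Fin n) ℂ)

/-- The operator norm of a matrix acting on the Euclidean space `ℂ^n`. -/
noncomputable def opNorm {n : ℕ} (X : Matrix (Fin n) (Fin n) ℂ) : ℝ :=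
  ‖Matrix.toEuclideanCLM (n := Fin n) (𝕜 := ℂ) X‖

/-- Unital: the identity goes to the identity. -/
def IsUnitalMap {n k : ℕ} (Φ : H n →ₗ[ℝ] H k) : Prop := Φ 1 = 1

/-- Positive: positive semidefinite matrices go to positive semidefinite matrices. -/
def IsPositiveMap {n k : ℕ} (Φ : H n →ₗ[ℝ] H k) : Prop :=
  ∀ X : H n, X.1.PosSemidef → (Φ X).1.PosSemidef

/-- Isometry for the operator norm. -/
def IsIsometryMap {n k : ℕ} (Φ : H n →ₗ[ℝ] H k) : Prop :=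
  ∀ X : H n, opNorm (Φ X).1 = opNorm X.1

/-- Generalized CLP isometry.  The space `ℂ^(n(α+β)+ζ)` is indexed by
`(Fin n × Fin α) ⊕ (Fin n × Fin β) ⊕ Fin ζ`, and the subspace `K` is the range of the
isometry `V`. -/
def IsGenCLP {n k : ℕ} (Φ : H n →ₗ[ℝ] H k) : Prop :=
  ∃ (α β ζ : ℕ) (f : H n →ₗ[ℝ] H ζ)
    (V : Matrix ((Fin n × Fin α) ⊕ ((Fin n × Fin β) ⊕ Fin ζ)) (Fin k) ℂ),
    IsUnitalMap f ∧ IsPositiveMap f ∧ Vᴴ * V = 1 ∧
    (∀ h : Fin n → ℂ, h ≠ 0 → ∃ (h₁ : Fin α → ℂ) (h₂ : Fin β → ℂ) (ξ : Fin k → ℂ),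
      V *ᵥ ξ ≠ 0 ∧
      V *ᵥ ξ = Sum.elim (fun p => h p.1 * h₁ p.2)
        (Sum.elim (fun p => star (h p.1) * h₂ p.2) (fun _ => 0))) ∧
    ∀ X : H n, (Φ X).1 =
      Vᴴ * fromBlocks (X.1 ⊗ₖ (1 : Matrix (Fin α) (Fin α) ℂ)) 0 0
        (fromBlocks (X.1ᵀ ⊗ₖ (1 : Matrix (Fin β) (Fin β) ℂ)) 0 0 (f X).1) * V

open Pool.Agent.MP_2a866c_an.H83 in
/-- There is a unital positive linear isometry from `H 2` to `H 4` that is not a generalized
CLP isometry. -/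
theorem result : ∃ Φ : H 2 →ₗ[ℝ] H 4,
    IsUnitalMap Φ ∧ IsPositiveMap Φ ∧ IsIsometryMap Φ ∧ ¬ IsGenCLP Φ := by
  obtain ⟨S, hS⟩ := exists_S
  have hsa : ∀ X : H 2, IsSelfAdjoint (Sᴴ * W X.1 * S) := by
    intro X
    have h1 : (W X.1).IsHermitian := by
      show (W X.1)ᴴ = W X.1
      rw [W_conjTranspose]
      exact congrArg W X.2
    exact isHermitian_conjTranspose_mul_mul S h1
  let Φ : H 2 →ₗ[ℝ] H 4 :=
    { toFun := fun X => ⟨Sᴴ * W X.1 * S, hsa X⟩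
      map_add' := fun X Y => Subtype.ext (by
        show Sᴴ * W (X.1 + Y.1) * S = Sᴴ * W X.1 * S + Sᴴ * W Y.1 * S
        rw [W_add, mul_add, add_mul])
      map_smul' := fun c X => Subtype.ext (by
        show Sᴴ * W (c • X.1) * S = c • (Sᴴ * W X.1 * S)
        rw [← Complex.coe_smul, W_smul, mul_smul_comm, smul_mul_assoc, Complex.coe_smul]) }
  refine ⟨Φ, Subtype.ext hS, fun X hX => (W_psd hX).conjTranspose_mul_mul_same S,
    fun X => Psi_norm S hS X.1 X.2, ?_⟩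
  rintro ⟨α, β, ζ, f, V, -, hf, -, hK, hΦ⟩
  obtain ⟨h1, h2⟩ := blocks_vanish S hS V
    (fun a => (f ⟨P a, (P_psd a).isHermitian⟩).1) (fun a => hf _ (P_psd a))
    (fun a => hΦ ⟨P a, (P_psd a).isHermitian⟩)
  obtain ⟨h₁, h₂, ξ, hne, heq⟩ := hK (fun _ => 1) (fun h => by simpa using congrFun h 0)
  refine hne (funext fun i => ?_)
  rcases i with i | i | i
  · simp [mulVec, dotProduct, h1]
  · simp [mulVec, dotProduct, h2]
  · rw [heq]
    rfl

end Pool.Agent.Results.MP_2a866c_an.NotGenCLP
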